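import Mathlib

namespace Pool.Agent.H.MP_1dc069_an

open Real Filter

noncomputable def B : ℕ → ℝ
  | 0 => 1
  | n + 1 => (3 * n + 5) ^ (6 * n + 11) * ((n + 1) * B n ^ (3 * n + 5) + 2)

lemma B_ge (n : ℕ) : 2 ^ n ≤ B n ∧ 2 * B n ≤ B (n + 1) := by
  have step : ∀ n : ℕ, 1 ≤ B n → 2 * B n ≤ B (n + 1) := by
    intro n h
    have h1 : (2 : ℝ) ≤ (3 * n + 5) ^ (6 * n + 11) := by
      have : (3 * n + 5 : ℝ) ≤ (3 * n + 5) ^ (6 * n + 11) :=
        le_self_pow₀ (by linarith [n.cast_nonneg (α := ℝ)]) (by omega)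
      linarith [n.cast_nonneg (α := ℝ)]
    have h2 : B n ≤ B n ^ (3 * n + 5) := le_self_pow₀ h (by omega)
    have h3 : B n ≤ (n + 1) * B n ^ (3 * n + 5) + 2 := by
      nlinarith [n.cast_nonneg (α := ℝ)]
    rw [B]
    exact mul_le_mul h1 h3 (by linarith) (by linarith)
  induction n with
  | zero => exact ⟨by simp [B], step 0 (by simp [B])⟩
  | succ n ih =>
    have : 2 ^ (n + 1) ≤ B (n + 1) := by rw [pow_succ]; linarith [ih.1, ih.2]
    exact ⟨this, step _ ((one_le_pow₀ (by norm_num)).trans this)⟩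

lemma B_one (n : ℕ) : 1 ≤ B n := (one_le_pow₀ (by norm_num)).trans (B_ge n).1

lemma B_mono : Monotone B := monotone_nat_of_le_succ fun n => by
  linarith [(B_ge n).2, B_one n]

noncomputable def term (c : ℕ → ℝ) (k n : ℕ) (x : ℝ) : ℝ :=
  c n * (B n ^ k / B n ^ (3 * n)) * cos (B n * x + k * (π / 2))

lemma term_le {c : ℕ → ℝ} {C : ℝ} (hc : ∀ n, |c n| ≤ C) (k n : ℕ) (x : ℝ) :
    ‖term c k n x‖ ≤ C * (B n ^ k / B n ^ (3 * n)) := by
  have := B_one n
  unfold term
  rw [Real.norm_eq_abs, abs_mul, abs_mul, abs_of_nonneg (by positivity : 0 ≤ B n ^ k / _)]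
  exact (mul_le_of_le_one_right (by positivity) (abs_cos_le_one _)).trans
    (mul_le_mul_of_nonneg_right (hc n) (by positivity))

lemma ratio_le {k n : ℕ} (h : k + 1 ≤ 3 * n) : B n ^ k / B n ^ (3 * n) ≤ (1 / 2) ^ n := by
  have h1 := B_one n
  have h2 := (B_ge n).1
  rw [div_le_iff₀ (by positivity)]
  have h3 : B n ^ (k + 1) ≤ B n ^ (3 * n) := pow_le_pow_right₀ h1 h
  have h4 : (1 / 2 : ℝ) ^ n * 2 ^ n = 1 := by rw [← mul_pow]; simp
  calc B n ^ k = (1 / 2 : ℝ) ^ n * (B n ^ k * 2 ^ n) := by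
        rw [mul_comm (B n ^ k), ← mul_assoc, h4, one_mul]
    _ ≤ (1 / 2 : ℝ) ^ n * B n ^ (3 * n) := by
        gcongr
        refine le_trans ?_ h3
        rw [pow_succ]; gcongr

lemma ratio_summable (k : ℕ) : Summable fun n => B n ^ k / B n ^ (3 * n) := by
  refine Summable.of_norm_bounded_eventually_nat summable_geometric_two ?_
  filter_upwards [eventually_ge_atTop (k + 1)] with n hn
  have := B_one n
  rw [Real.norm_eq_abs, abs_of_nonneg (by positivity)]
  exact ratio_le (by omega)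

lemma term_summable {c : ℕ → ℝ} {C : ℝ} (hc : ∀ n, |c n| ≤ C) (k : ℕ) (x : ℝ) :
    Summable fun n => term c k n x :=
  Summable.of_norm_bounded ((ratio_summable k).mul_left C) fun n => term_le hc k n x

noncomputable def D (c : ℕ → ℝ) (k : ℕ) (x : ℝ) : ℝ := ∑' n, term c k n x

lemma D_deriv {c : ℕ → ℝ} {C : ℝ} (hc : ∀ n, |c n| ≤ C) (k : ℕ) (x : ℝ) :
    HasDerivAt (D c k) (D c (k + 1) x) x := by
  refine hasDerivAt_tsum ((ratio_summable (k + 1)).mul_left C) (fun n y => ?_)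
    (fun n y => term_le hc (k + 1) n y) (term_summable hc k 0) x
  have h1 : HasDerivAt (fun y => B n * y + k * (π / 2)) (B n) y := by
    simpa using ((hasDerivAt_id y).const_mul (B n)).add_const (k * (π / 2))
  refine (h1.cos.const_mul (c n * (B n ^ k / B n ^ (3 * n)))).congr_deriv ?_
  unfold term
  have : B n * y + ((k + 1 : ℕ) : ℝ) * (π / 2) = (B n * y + k * (π / 2)) + π / 2 := by
    push_cast; ring
  rw [this, cos_add_pi_div_two]; ring

lemma iter {c : ℕ → ℝ} {C : ℝ} (hc : ∀ n, |c n| ≤ C) (k : ℕ) :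
    iteratedDeriv k (D c 0) = D c k := by
  induction k with
  | zero => simp
  | succ k ih => rw [iteratedDeriv_succ, ih]; ext x; exact (D_deriv hc k x).deriv

lemma smooth {c : ℕ → ℝ} {C : ℝ} (hc : ∀ n, |c n| ≤ C) : ContDiff ℝ ((⊤ : ℕ∞) : WithTop ℕ∞) (D c 0) :=
  contDiff_of_differentiable_iteratedDeriv fun m _ => by
    rw [iter hc]; exact fun x => (D_deriv hc m x).differentiableAt

lemma rest_le {c : ℕ → ℝ} {C : ℝ} (hc : ∀ n, |c n| ≤ C) (n k : ℕ) (hk : k ≤ 3 * n + 5) (x : ℝ) :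
    |D c k x - term c k (n + 1) x| ≤ C * ((n + 1) * B n ^ (3 * n + 5) + 2) := by
  have hC : 0 ≤ C := (abs_nonneg _).trans (hc 0)
  have hs := term_summable hc k x
  have e : D c k x - term c k (n + 1) x = ∑ m ∈ Finset.range (n + 1), term c k m x +
      ∑' m, term c k (m + (n + 2)) x := by
    unfold D
    rw [← hs.sum_add_tsum_nat_add (n + 2), Finset.sum_range_succ _ (n + 1)]; ring
  rw [e, mul_add]
  refine (abs_add_le _ _).trans (add_le_add ?_ ?_)
  · refine (Finset.abs_sum_le_sum_abs _ _).trans ?_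
    have := Finset.sum_le_card_nsmul (Finset.range (n + 1)) (fun m => |term c k m x|)
      (C * B n ^ (3 * n + 5)) fun m hm => by
        refine (term_le hc k m x).trans (mul_le_mul_of_nonneg_left ?_ hC)
        have h1 := B_one m
        refine (div_le_self (by positivity) (one_le_pow₀ h1)).trans ?_
        refine (pow_le_pow_right₀ h1 hk).trans ?_
        exact pow_le_pow_left₀ (by linarith) (B_mono (by simpa [Nat.lt_succ_iff] using hm)) _
    simp only [Finset.card_range, nsmul_eq_mul] at this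
    push_cast at this
    linarith
  · rw [← Real.norm_eq_abs]
    refine tsum_of_norm_bounded (hasSum_geometric_two.mul_left C) fun m => ?_
    refine (term_le hc k _ x).trans (mul_le_mul_of_nonneg_left ?_ hC)
    refine (ratio_le (by omega)).trans ?_
    exact pow_le_pow_of_le_one (by norm_num) (by norm_num) (by omega)

lemma main_ge (c : ℕ → ℝ) (n : ℕ) (x : ℝ) : ∃ k, k ≤ 3 * n + 5 ∧
    |c (n + 1)| * B (n + 1) / 2 ≤ |term c k (n + 1) x| := by
  have h1 := B_one (n + 1)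
  have key : ∀ k, 3 * (n + 1) + 1 ≤ k → 1 / 2 ≤ |cos (B (n + 1) * x + k * (π / 2))| →
      |c (n + 1)| * B (n + 1) / 2 ≤ |term c k (n + 1) x| := by
    intro k hk h
    unfold term
    rw [abs_mul, abs_mul, abs_of_nonneg (by positivity : 0 ≤ B (n + 1) ^ k / _)]
    have h2 : B (n + 1) ≤ B (n + 1) ^ k / B (n + 1) ^ (3 * (n + 1)) := by
      rw [le_div_iff₀ (by positivity), ← pow_succ']
      exact pow_le_pow_right₀ h1 hk
    calc _ = |c (n + 1)| * B (n + 1) * (1 / 2) := by ring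
      _ ≤ _ := by gcongr
  by_cases h : 1 / 2 ≤ |cos (B (n + 1) * x + (3 * n + 4 : ℕ) * (π / 2))|
  · exact ⟨3 * n + 4, by omega, key _ (by omega) h⟩
  · refine ⟨3 * n + 5, le_rfl, key _ (by omega) ?_⟩
    have : B (n + 1) * x + ((3 * n + 5 : ℕ) : ℝ) * (π / 2) =
        (B (n + 1) * x + (3 * n + 4 : ℕ) * (π / 2)) + π / 2 := by push_cast; ring
    rw [this, cos_add_pi_div_two, abs_neg]
    set y := B (n + 1) * x + (3 * n + 4 : ℕ) * (π / 2)
    by_contra h'
    push Not at h h'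
    have := sin_sq_add_cos_sq y
    rw [← sq_abs (sin y), ← sq_abs (cos y)] at this
    nlinarith [abs_nonneg (sin y), abs_nonneg (cos y)]

lemma unbdd {c : ℕ → ℝ} {C : ℝ} (hc : ∀ n, |c n| ≤ C) (c0 : ℝ) (h0 : 0 < c0)
    (hinf : ∀ N, ∃ n ≥ N, c0 ≤ |c (n + 1)|) (x r K : ℝ) (hr : 0 < r) :
    ∃ k, K < |D c k x / k.factorial| * r ^ k := by
  have hC : 0 ≤ C := (abs_nonneg _).trans (hc 0)
  obtain ⟨N, hN⟩ := exists_nat_gt (max (1 / r) (2 * (|K| + C) / c0))
  obtain ⟨n, hn, hcn⟩ := hinf N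
  obtain ⟨k, hk, h1⟩ := main_ge c n x
  have h2 := rest_le hc n k hk x
  have hn' : (N : ℝ) ≤ n := by exact_mod_cast hn
  have hn0 := n.cast_nonneg (α := ℝ)
  set L : ℝ := 3 * n + 5 with hL
  have hL1 : 1 ≤ L := by linarith
  have hr' : 1 / r ≤ L := by linarith [le_max_left (1 / r) (2 * (|K| + C) / c0)]
  have hK : 2 * (|K| + C) < L * c0 := by
    rw [← div_lt_iff₀ h0]; linarith [le_max_right (1 / r) (2 * (|K| + C) / c0)]
  set T : ℝ := (n + 1) * B n ^ (3 * n + 5) + 2 with hT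
  have hT1 : 1 ≤ T := by have := B_one n; have : 0 ≤ (n + 1) * B n ^ (3 * n + 5) := by positivity
                         linarith
  have hB : B (n + 1) = L ^ (6 * n + 10) * L * T := by rw [B, ← pow_succ]
  set P : ℝ := L ^ (6 * n + 10) with hP
  have hP1 : 1 ≤ P := one_le_pow₀ hL1
  have h3 : |K| * P < |D c k x| := by
    have a1 : c0 * B (n + 1) / 2 ≤ |term c k (n + 1) x| := by
      refine le_trans ?_ h1
      have := B_one (n + 1)
      gcongr
    have a2 := abs_sub_abs_le_abs_sub (term c k (n + 1) x) (D c k x)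
    rw [abs_sub_comm] at a2
    rw [hB] at a1
    have a3 : (|K| + C) * (P * T) < c0 * (P * L * T) / 2 := by
      have : 0 < P * T := by positivity
      nlinarith
    have a4 : C * T ≤ C * (P * T) := by gcongr; nlinarith
    have a5 : |K| * P ≤ |K| * (P * T) := by gcongr; nlinarith
    nlinarith
  have h4 : (k.factorial : ℝ) * (1 / r) ^ k ≤ P := by
    have b1 : (k.factorial : ℝ) ≤ L ^ (3 * n + 5) := by
      calc (k.factorial : ℝ) ≤ (k : ℝ) ^ k := by exact_mod_cast Nat.factorial_le_pow k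
        _ ≤ L ^ k := by
          gcongr
          rw [hL]; exact_mod_cast hk
        _ ≤ _ := pow_le_pow_right₀ hL1 hk
    have b2 : (1 / r) ^ k ≤ L ^ (3 * n + 5) :=
      (pow_le_pow_left₀ (by positivity) hr' k).trans (pow_le_pow_right₀ hL1 hk)
    calc _ ≤ L ^ (3 * n + 5) * L ^ (3 * n + 5) := by gcongr
      _ = P := by rw [hP, ← pow_add]; congr 1; ring
  refine ⟨k, (le_abs_self K).trans_lt ?_⟩
  have hf : (0 : ℝ) < k.factorial := by positivity
  rw [abs_div, abs_of_pos hf, div_mul_eq_mul_div, lt_div_iff₀ hf]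
  have h5 : (1 / r) ^ k * r ^ k = 1 := by rw [← mul_pow, one_div_mul_cancel hr.ne', one_pow]
  calc |K| * k.factorial = |K| * (k.factorial * (1 / r) ^ k) * r ^ k := by
        rw [mul_assoc, mul_assoc, h5, mul_one]
    _ ≤ |K| * P * r ^ k := by gcongr
    _ < _ := by gcongr

lemma radius_zero {c : ℕ → ℝ} {C : ℝ} (hc : ∀ n, |c n| ≤ C) (c0 : ℝ) (h0 : 0 < c0)
    (hinf : ∀ N, ∃ n ≥ N, c0 ≤ |c (n + 1)|) (x : ℝ) :
    (FormalMultilinearSeries.ofScalars ℝ fun k => D c k x / k.factorial).radius = 0 := by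
  by_contra h
  obtain ⟨r, hr0, hr⟩ := ENNReal.lt_iff_exists_nnreal_btwn.1 (pos_iff_ne_zero.2 h)
  obtain ⟨K, -, hK⟩ := FormalMultilinearSeries.norm_mul_pow_le_of_lt_radius _ hr
  obtain ⟨k, hk⟩ := unbdd hc c0 h0 hinf x r K (by exact_mod_cast hr0)
  have := hK k
  rw [FormalMultilinearSeries.ofScalars_norm, Real.norm_eq_abs] at this
  linarith

open BoundedContinuousFunction in
noncomputable def L (I : Set ℝ) : (ℕ →ᵇ ℝ) →ₗ[ℝ] (I → ℝ) where
  toFun g x := D (fun n => g n.unpair.1) 0 x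
  map_add' g h := by
    ext x
    have h1 := term_summable (c := fun n => g n.unpair.1) (fun n => g.norm_coe_le_norm _) 0 x
    have h2 := term_summable (c := fun n => h n.unpair.1) (fun n => h.norm_coe_le_norm _) 0 x
    simp only [D, Pi.add_apply]
    rw [← h1.tsum_add h2]
    congr 1; ext n; simp [term]; ring
  map_smul' a g := by
    ext x
    simp only [D, Pi.smul_apply, smul_eq_mul, RingHom.id_apply]
    rw [← tsum_mul_left]
    congr 1; ext n; simp [term]; ring

open BoundedContinuousFunction in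
lemma L_radius (g : ℕ →ᵇ ℝ) (hg : g ≠ 0) (x : ℝ) :
    (FormalMultilinearSeries.ofScalars ℝ
      fun k => D (fun n => g n.unpair.1) k x / k.factorial).radius = 0 := by
  obtain ⟨m, hm⟩ : ∃ m, g m ≠ 0 := by
    by_contra h
    push Not at h
    exact hg (by ext m; simp [h m])
  refine radius_zero (fun n => g.norm_coe_le_norm _) |g m| (abs_pos.2 hm) (fun N => ?_) x
  have := Nat.right_le_pair m (N + 1)
  refine ⟨Nat.pair m (N + 1) - 1, by omega, ?_⟩
  rw [Nat.sub_add_cancel (by omega), Nat.unpair_pair]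

open BoundedContinuousFunction in
lemma rank_bcf : Module.rank ℝ (ℕ →ᵇ ℝ) = Cardinal.continuum := by
  apply le_antisymm
  · refine (rank_le_card ℝ _).trans ?_
    refine (Cardinal.mk_le_of_injective (f := fun g : ℕ →ᵇ ℝ => (g : ℕ → ℝ))
      DFunLike.coe_injective).trans ?_
    simp [Cardinal.mk_real]
  · let v : Set.Ioo (0 : ℝ) 1 → (ℕ →ᵇ ℝ) := fun a =>
      ofNormedAddCommGroupDiscrete (fun n => (a : ℝ) ^ n) 1 fun n => by
        rw [Real.norm_eq_abs, abs_of_nonneg (pow_nonneg a.2.1.le n)]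
        exact pow_le_one₀ a.2.1.le a.2.2.le
    have h1 := (linearIndependent_monoidHom (Multiplicative ℕ) ℝ).comp
      (fun a : Set.Ioo (0 : ℝ) 1 => powersHom ℝ (a : ℝ))
      ((powersHom ℝ).injective.comp Subtype.val_injective)
    let φ : (ℕ →ᵇ ℝ) →ₗ[ℝ] (Multiplicative ℕ → ℝ) :=
      { toFun := fun g n => g n.toAdd
        map_add' := fun _ _ => rfl
        map_smul' := fun _ _ => rfl }
    have h2 : LinearIndependent ℝ v := LinearIndependent.of_comp φ h1
    have := h2.cardinal_le_rank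
    rwa [Cardinal.mk_Ioo_real zero_lt_one] at this

end Pool.Agent.H.MP_1dc069_an
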